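import Pool.Agent.MP_ecfd11_lc.H46M.Main

/-!
The cofinality of the size of a point.
-/

set_option synthInstance.maxSize 4000

namespace Pool.Agent.MP_ecfd11_lc.H13N

open Pool.Agent.MP_ecfd11_lc.H20 Pool.Agent.MP_ecfd11_lc.H13X Pool.Agent.MP_ecfd11_lc.H3U
  Pool.Agent.MP_ecfd11_lc.H3E Pool.Agent.MP_ecfd11_lc.H65S Pool.Agent.MP_ecfd11_lc.H46M

universe u

open ZFSet Cardinal Function Filter

variable {g t : ZFSet.{u}}

theorem bdk_koenig {c : Cardinal.{u}} (hc : ℵ₀ ≤ c) (h : c ^ card g ≤ c) :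
    BdK g c.ord.toZFSet := by
  intro y h1 h2
  have mo := isOrdinal_toZFSet c.ord
  by_contra h0
  have h3 : ∀ o < c.ord, ∃ z ∈ y, o ≤ rank z := fun o ho => by
    by_contra h4
    refine h0 ⟨o.toZFSet, Ordinal.toZFSet_mem_toZFSet_iff.2 ho, fun z hz => ?_⟩
    refine ((mo.mem (h1 hz)).rank_lt_iff_mem (isOrdinal_toZFSet o)).1 ?_
    rw [Ordinal.rank_toZFSet]
    exact not_le.1 fun h5 => h4 ⟨z, hz, h5⟩
  have h5 : ∀ z ∈ y, rank z < c.ord := fun z hz => by
    simpa only [Ordinal.rank_toZFSet] using rank_lt_of_mem (h1 hz)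
  have h6 : c.ord.cof ≤ card y := by
    have e : Ordinal.lsub.{u, u} (fun z : Shrink.{u} y => rank ((equivShrink y).symm z).1) =
        c.ord := by
      refine le_antisymm (Ordinal.lsub_le fun z => h5 _ ((equivShrink y).symm z).2)
        (le_of_forall_lt fun o ho => ?_)
      obtain ⟨z, hz, h7⟩ := h3 o ho
      refine h7.trans_lt ?_
      simpa using Ordinal.lt_lsub (fun z : Shrink.{u} y => rank ((equivShrink y).symm z).1)
        (equivShrink y ⟨z, hz⟩)
    exact e ▸ Ordinal.cof_lsub_le _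
  exact ((lt_power_cof hc).trans_le (power_le_power_left
    (aleph0_pos.trans_le hc).ne' (h6.trans h2))).not_ge h

theorem ev_bdk (hg : ℵ₀ ≤ card g) (ht : Regular Set.univ t)
    (hw : ∀ e ∈ t, card e ^ card g < card t) :
    ∀ᶠ a in cf t (unc_of_regular ht), BdK g a → BdK g (card a).ord.toZFSet := by
  have hu := unc_of_regular ht
  by_cases h : ∀ x ∈ t, succCard x ∈ t
  · filter_upwards [ev_diag (S := t) ht (p := fun i a => succCard i ∈ a)
      fun i hi => ev_above hu (h i hi), ev_mem (S := t) hu] with a a1 a2 hb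
    have ao := ht.1.mem a2.1
    have mo := isOrdinal_toZFSet (card a).ord
    rcases mo.mem_trichotomous ao with e | e | e
    · exact absurd (ao.mem_trans (mem_succCard.2 ⟨ao, (card_ord' _).ge⟩) (a1 _ e)) (mem_irrefl a)
    · rwa [e]
    · exact absurd ((mem_ord_iff ao).1 e) (lt_irrefl _)
  · obtain ⟨x, hx⟩ := not_forall.1 h
    obtain ⟨x1, x2⟩ := Classical.not_imp.1 hx
    have h1 : card t ≤ Order.succ (card x) := card_succCard x ▸
      card_mono (((succCard_ord x).mem_or_subset ht.1).resolve_left x2)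
    filter_upwards [ev_above (S := t) hu x1, ev_mem (S := t) hu] with a a1 a2 hb
    have ao := ht.1.mem a2.1
    refine bdk_koenig (hg.trans ?_) ((Order.lt_succ_iff.1 ((hw a a2.1).trans_le h1)).trans
      (card_mono (ao.subset_of_mem a1)))
    by_contra h2
    obtain ⟨b, b1, b2⟩ := hb a subset_rfl (not_le.1 h2).le
    exact mem_irrefl b (b2 b b1)

end Pool.Agent.MP_ecfd11_lc.H13N
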