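import Pool.Agent.MP_ecfd11_lc.H13N.Real
import Pool.Agent.MP_ecfd11_lc.H13N.Card
import Pool.Agent.MP_ecfd11_lc.H3H.Main

/-!
The dichotomy without a bound on the size of the next level.
-/

set_option synthInstance.maxSize 4000

namespace Pool.Agent.MP_ecfd11_lc.H13N

open Pool.Agent.MP_ecfd11_lc.H20 Pool.Agent.MP_ecfd11_lc.H13X Pool.Agent.MP_ecfd11_lc.H3U
  Pool.Agent.MP_ecfd11_lc.H3E Pool.Agent.MP_ecfd11_lc.H65S Pool.Agent.MP_ecfd11_lc.H46M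
  Pool.Agent.MP_ecfd11_lc.H3G Pool.Agent.MP_ecfd11_lc.H65D Pool.Agent.MP_ecfd11_lc.H3H

universe u

open ZFSet Cardinal Function Filter

theorem extN {g t a Q : ZFSet.{u}} {B : ZFSet.{u} → ZFSet.{u}} (hg : ℵ₀ ≤ card g)
    (go : g.IsOrdinal) (ht : Regular Set.univ t) (hat : a ∈ t)
    (h : Good t B a) (hb : BdK g a) (hc : BdK g (card a).ord.toZFSet) (hs : SL a)
    (hr : RealN g t B a)
    (sm : StronglyMeasurable Set.univ (succCard a)) (h0 : H46M.Cof (card g) a)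
    (hQ : Q ∈ vonNeumann t.rank) (q0 : ∃ z, z ∈ Q) (q1 : Few (card g) a Q) :
    ∃ n f, HOD Set.univ f ∧ IsFunc n Q f ∧ (∀ x ∈ Q, ∃ r, pair r x ∈ f) ∧
      HOD Set.univ (ExQ B a n f) := by
  have ao := h.ord
  have au := hb.unc hg ao
  have ho := (om_subset_iff ao).2 hs.unc.le
  have ga : card g ≤ card a := by
    by_contra h
    obtain ⟨b, b1, b2⟩ := hb a subset_rfl (not_le.1 h).le
    exact mem_irrefl b (b2 b b1)
  obtain ⟨n, f, hn, f0, f1, f2, f3⟩ := q1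
  obtain ⟨th, t0, t1, t2, -⟩ := exists_th ao
  obtain ⟨y, y1, y2, y3⟩ := (cof_iff ao t0 t1 t2).1 h0
  have m1 := small ga sm ao hn f3
  obtain ⟨v, hv⟩ := (kp_of hg ao ho hs t0 t1 t2 y1 y2 y3 hn m1 f3).cvd ao hn
  have hG := main_low ht (ht.mem_of_card_lt hn (m1.trans_lt (ht.card_lt hat))) hQ f0 f1
  obtain ⟨z, hz⟩ := q0
  obtain ⟨r, hr'⟩ := f2 z hz
  obtain ⟨X, x1, x2⟩ := hr v n f hn.isTransitive ⟨r, (pair_mem_prod.1 (f1.1 hr')).1⟩ hv hG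
  exact ⟨n, f, f0, f1, f2,
    lemN hs au go hb (hc.unc hg (isOrdinal_toZFSet _)) hc (card_ord' _).le (hod_ord hn) hv
      ExQ_sub (apxQ h (hod_ord hn) f0) x1 x2⟩

theorem mainN {d x t : ZFSet.{u}} {k : Cardinal.{u}} (hd : StronglyCompact d t) (hdt : d ∈ t)
    (hx : x ∈ t) (hp : 2 ^ card (d ∪ x) < card t) (ht : Regular Set.univ t) (hk : ℵ₀ ≤ k)
    (hw : ∀ e ∈ t, card e ^ k < card t)
    (hs : ∀ l, x ∈ l → l ⊆ succCard t → Regular Set.univ l → StronglyMeasurable Set.univ l) :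
    ∃ th, HODSucc t th ∧ (SupHOD t th ∨ CofOmega Set.univ th ∧
    ∃ c, Club t c ∧ ∀ a ∈ c, (card a).IsStrongLimit →
      ¬ Regular Set.univ (card a).ord.toZFSet →
      (∀ y, y ⊆ a → card y ≤ k → ∃ b ∈ a, ∀ z ∈ y, z ∈ b) →
      ∀ Q, Q ∈ vonNeumann t.rank → Q.IsTransitive → a ∈ Q → Few k a Q →
        ∃ (M : Set ZFSet.{u}) (i : ZFSet.{u} → ZFSet.{u}), Internal M i ∧ (∀ y ∈ a, i y = y) ∧
          ∀ z ∈ Q, z ∈ M ∧ (z.IsOrdinal → z ∈ i a)) := by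
  obtain ⟨g, go, rfl⟩ : ∃ g : ZFSet.{u}, g.IsOrdinal ∧ card g = k :=
    ⟨_, isOrdinal_toZFSet _, card_ord' k⟩
  have hu := unc_of_regular ht
  have hw' : ∀ e ∈ t, card e ^ ℵ₀ < card t := fun e he => by
    by_cases h2 : card e = 0
    · rw [h2]
      exact (zero_power_le _).trans_lt (one_lt_aleph0.trans ht.aleph0_lt)
    · exact (power_le_power_left h2 hk).trans_lt (hw e he)
  have h5 : ∀ a : ZFSet.{u}, a.IsOrdinal → a ∈ succCard a := fun a ha =>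
    mem_succCard.2 ⟨ha, le_rfl⟩
  have h6 : ∀ a : ZFSet.{u}, a.IsOrdinal → x ∈ a → a ⊆ t → ℵ₀ ≤ card a →
      StronglyMeasurable Set.univ (succCard a) := fun a ha h1 h2 h3 =>
    hs _ ((succCard_ord a).mem_trans h1 (h5 a ha)) (fun z hz => mem_succCard.2
      ⟨(mem_succCard.1 hz).1, (mem_succCard.1 hz).2.trans (card_mono h2)⟩) (regular_succCard h3)
  have hst := hs t hx ((succCard_ord t).subset_of_mem (h5 t ht.1)) ht
  have hL := card_Lev (h6 t ht.1 hx subset_rfl ht.aleph0_lt.le) (h5 t ht.1)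
  obtain ⟨th, t0, t1, t2, t3⟩ := exists_th ht.1
  have hth : Th t th := ⟨t0, t1, t2⟩
  refine ⟨th, hth.succ ht.1, ?_⟩
  by_cases hn : Unc th
  · exact Or.inl (supA hd hdt hx hp ht hs hth (t3.trans hL) hn)
  refine Or.inr ⟨hth.cofOmega ht.1 (ht.1.subset_of_mem ht.2.1) hn, ?_⟩
  obtain ⟨ee, he⟩ := hth.inj ht.1
  obtain ⟨B, hB⟩ := system2 hd hdt hst hL hw'
  obtain ⟨c, c1, c2⟩ := (ev_iff hu).1 (hB.and ((realN hk ht hw (hB.mono fun _ h => h.1)).and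
    ((ev_above hu hx).and ((link ht hth he hn (hB.mono fun _ h => h.1)).and (ev_bdk hk ht hw)))))
  refine ⟨c, c1, fun a ha a1 a2 a3 Q q1 q2 q3 q5 => ?_⟩
  obtain ⟨⟨G, g1⟩, g2, g3, g4, g5⟩ := not_not.1 fun h => c2 a (mem_sep.2 ⟨c1.1 ha, h⟩) ha
  have ao := G.ord
  have au := BdK.unc a3 hk ao
  have sl := sl_of a1 a2 au
  have hc : H46M.Cof (card g) a := by
    obtain ⟨n, m0, m1, m2, -⟩ := exists_th ao
    obtain ⟨y, y1, y2⟩ := g4 n ⟨m0, m1, m2⟩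
    exact (cof_iff ao m0 m1 m2).2 ⟨y, y1.trans hk, y2⟩
  obtain ⟨N, j, -, -, n3, n4, n5, n6⟩ := g1 au
  obtain ⟨P, p1, p2, p3, p4⟩ := close hu (fun z hz =>
    q2.mem_trans ((om_subset_iff ao).2 a1.aleph0_le hz) q3) q1 q5
  obtain ⟨n, f, f0, f1, f2, m3⟩ := extN hk go ht (c1.1 ha) G a3 (g5 a3) sl (g2 a3 (g5 a3) a1)
    (h6 a ao g3 G.sub sl.unc.le) hc p1 ⟨a, p2 q3⟩ p4
  have := hod_tm f0
  have q0 : HOD Set.univ P := by
    obtain ⟨n, f, hn, f0, f1, f2, -⟩ := p4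
    have := hod_tm f0
    have e : P = img (app f) n := ZFSet.ext fun z => ⟨fun hz => by
      obtain ⟨r, hr⟩ := f2 z hz
      exact mem_img.2 ⟨r, (pair_mem_prod.1 (f1.1 hr)).1, f1.app_eq hr⟩, fun hz => by
      obtain ⟨r, hr, rfl⟩ := mem_img.1 hz
      exact f1.app_mem' hr⟩
    rw [e]
    exact hod_img (hod_ord hn).self _ fun i hi => hod_app f0 f1 hi
  obtain ⟨M, i, e, m1, m2, m3, m4, -⟩ := n6 P (img (fun p => pair (fst p) (app f (snd p)))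
    (ExQ B a n f)) q0 ((isTransitive_vonNeumann _).subset_of_mem p1) ⟨a, p2 q3⟩ p3
    (hod_img m3.self _ fun p hp => by
      obtain ⟨x, hx, y, hy, rfl⟩ := mem_prod.1 (ExQ_sub hp)
      rw [fst_pair, snd_pair]
      exact hod_pair ((mem_Lev ao).1 hx).2 (hod_app f0 f1 hy)) fun y z => by
      rw [mem_img]
      constructor
      · rintro ⟨p, hp, e⟩
        obtain ⟨x, -, i, -, rfl⟩ := mem_prod.1 (ExQ_sub hp)
        rw [fst_pair, snd_pair] at e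
        obtain ⟨rfl, rfl⟩ := pair_inj.1 e
        obtain ⟨p1, p2, w, w1, w2, w3⟩ := mem_ExQ.1 hp
        exact ⟨p1, f1.app_mem' p2, by rwa [w2, n5 w w1]⟩
      · rintro ⟨p1, p2, p3⟩
        obtain ⟨i, hi⟩ := f2 z p2
        obtain ⟨w, w1, rfl⟩ := G.tr y p1
        refine ⟨pair _ i, mem_ExQ.2 ⟨p1, (pair_mem_prod.1 (f1.1 hi)).1, w, w1, rfl, ?_⟩, ?_⟩
        · rwa [f1.app_eq hi, ← n5 w w1]
        · rw [fst_pair, snd_pair, f1.app_eq hi]
  have m6 := fix_of_elem (fun x hx => (m1.1 x hx).2) m2 q2 fun z hz => m4 z (p2 hz)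
  have im : ∀ y : ZFSet.{u}, y.IsOrdinal → i y ∈ M := fun y hy => m1.2.1.1 y (hod_ord hy)
  refine ⟨M, i, m1, fun y hy => ?_, fun z hz => ⟨(m6 z hz).1, fun zo => ?_⟩⟩
  · obtain ⟨h1, h2⟩ := m6 y (q2.mem_trans hy q3)
    exact (m2.2 (.eq 0 1) (cons (i y) fun _ => y) fun n => by
      cases n; exacts [im y (ao.mem hy), h1]).2
        (((m3 y (hod_ord (ao.mem hy))).trans (n3 y hy)).trans h2.symm)
  · obtain ⟨h1, h2⟩ := m6 z hz
    refine (m2.2 (.mem 0 1) (cons z fun _ => i a) fun n => by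
      cases n; exacts [h1, im a ao]).2 ?_
    change e z ∈ e (i a)
    rw [h2, m3 a (hod_ord ao), n4]
    exact (zo.rank_lt_iff_mem ht.1).1
      (mem_vonNeumann.1 ((isTransitive_vonNeumann _).mem_trans hz q1))

end Pool.Agent.MP_ecfd11_lc.H13N
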