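import Pool.Agent.MP_ecfd11_lc.H46M.Main

/-!
Sets that are computed along an arbitrary filtration.
-/

set_option synthInstance.maxSize 4000

namespace Pool.Agent.MP_ecfd11_lc.H13N

open Pool.Agent.MP_ecfd11_lc.H20 Pool.Agent.MP_ecfd11_lc.H13X Pool.Agent.MP_ecfd11_lc.H3U
  Pool.Agent.MP_ecfd11_lc.H3E Pool.Agent.MP_ecfd11_lc.H65S Pool.Agent.MP_ecfd11_lc.H46M

universe u

open ZFSet Cardinal Function Filter

variable {a c d g m n v w x Q X Y Z τ : ZFSet.{u}}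

theorem nb (hn : Unc n) : (cf n hn).NeBot :=
  neBot (S := n) hn fun ⟨e, e1, e2⟩ => by
    obtain ⟨x, x1, -⟩ := e1.2.1 _ hn.empty_mem
    exact e2 x (e1.1 x1) x1

theorem rank_fam (sl : ∀ k < card a, 2 ^ k < card a) (unc : ℵ₀ < card a) (hn : Unc n) (hm : Unc m)
    (c1 : Club n c) (c2 : card c < card a) (d1 : Club m d) (d2 : card d < card a)
    (hZ : HOD Set.univ Z)
    (W : ZFSet.{u} → ZFSet.{u} → Prop) [Df Set.univ On (fun v => W (v 0) (v 1))]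
    (h1 : ∀ σ F, W σ F → σ ⊆ Z ∧ Apx a Z σ ∧ ∀ i ∈ n, ∀ x ∈ m, (app F (pair i x)).IsOrdinal)
    (hne : ∀ σ F τ F', W σ F → W τ F' → σ ≠ τ →
      ∀ᶠ i in cf n hn, ∀ᶠ x in cf m hm, app F (pair i x) ≠ app F' (pair i x))
    {σ F : ZFSet.{u}} (h : W σ F) : HOD Set.univ σ := by
  have := Df.two (C := Set.univ) (A := On) W
  have := hod_tm hZ
  have : Tm Set.univ On (fun _ => n) := Tm.ofOrd hn.1
  have : Tm Set.univ On (fun _ => m) := Tm.ofOrd hm.1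
  have := nb hn
  have := nb hm
  have wf : WellFounded fun t s : ZFSet.{u} =>
      ∀ᶠ i in cf n hn, ∀ᶠ x in cf m hm, app t (pair i x) ∈ app s (pair i x) := by
    rw [wellFounded_iff_isEmpty_descending_chain]
    refine ⟨fun ⟨G, hG⟩ => ?_⟩
    obtain ⟨i, hi⟩ := (ev_nat (S := n) hn (p := fun k i => ∀ᶠ x in cf m hm,
      app (G (k + 1)) (pair i x) ∈ app (G k) (pair i x)) hG).exists
    obtain ⟨x, hx⟩ := (ev_nat (S := m) hm (p := fun k x =>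
      app (G (k + 1)) (pair i x) ∈ app (G k) (pair i x)) hi).exists
    exact (wellFounded_iff_isEmpty_descending_chain.1 mem_wf).false
      ⟨fun k => app (G k) (pair i x), hx⟩
  by_contra h0
  obtain ⟨H, ⟨z, w1, w2⟩, w3⟩ := wf.has_min {F | ∃ σ, W σ F ∧ ¬ HOD Set.univ σ} ⟨F, σ, h, h0⟩
  obtain ⟨M, hM⟩ : ∃ M, M = (powerset Z).sep fun s => ¬ HOD Set.univ s ∧ ∃ F, W s F ∧
    ∀ t, ∀ F', W t F' → ¬ HOD Set.univ t → ¬ Null n (n.sep fun i =>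
      ¬ Null m (m.sep fun x => ¬ app F' (pair i x) ∈ app F (pair i x))) := ⟨_, rfl⟩
  have m1 : ∀ x ∈ M, ¬ HOD Set.univ x ∧ ∃ F, W x F ∧ ∀ t, ∀ F', W t F' → ¬ HOD Set.univ t →
    ¬ ∀ᶠ i in cf n hn, ∀ᶠ x in cf m hm, app F' (pair i x) ∈ app F (pair i x) :=
    fun x hx => (mem_sep.1 (hM ▸ hx)).2
  choose! m0 f f1 f2 using m1
  refine w2 (small_fam (a := a) (F := M) hZ (by rw [hM]; exact od_iff.2 inferInstance)
    (fun x hx => (h1 x _ (f1 x hx)).1) (sl _ ((er M (prod c d) (fun x i => app (f x) i)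
      (fun x hx p hp => ?_) fun y hy x hx e => ?_).trans_lt
        (sl _ (max_lt unc ((card_prod_le _ _).trans_lt (mul_lt_of_lt unc.le c2 d2))))))
    (hM ▸ mem_sep.2 ⟨mem_powerset.2 (h1 z H w1).1, w2, H, w1,
      fun t F' s1 s2 => w3 F' ⟨t, s1, s2⟩⟩) (h1 z H w1).2.1)
  · obtain ⟨i, hi, l, hl, rfl⟩ := mem_prod.1 hp
    exact (h1 x _ (f1 x hx)).2.2 i (c1.1 hi) l (d1.1 hl)
  obtain ⟨i, i1, i2, i3⟩ :=
    ((not_eventually.1 (f2 x hx y _ (f1 y hy) (m0 y hy))).and_eventually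
      ((hne y _ x _ (f1 y hy) (f1 x hx) e).and (ev_club hn c1))).exists
  obtain ⟨l, l1, l2, l3⟩ := ((not_eventually.1 i1).and_eventually (i2.and (ev_club hm d1))).exists
  rcases ((h1 y _ (f1 y hy)).2.2 i (c1.1 i3) l (d1.1 l3)).mem_trichotomous
    ((h1 x _ (f1 x hx)).2.2 i (c1.1 i3) l (d1.1 l3)) with h | h | h
  exacts [absurd h l1, absurd h l2, ⟨_, pair_mem_prod.2 ⟨i3, l3⟩, h⟩]

/-- `b` is closed under the functions `a → a` in `X`. -/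
def Cl (a X b : ZFSet.{u}) : Prop :=
  ∀ F, F ∈ X → IsFunc a a F → ∀ i, i ∈ b → ∀ j, pair i j ∈ F → j ∈ b

/-- `τ` is computed on `X × v[b]` from the collapse of `v[b]` and the function `h`. -/
def InN (a X v τ b h : ZFSet.{u}) : Prop :=
  Cl a X b ∧ ∃ p, Clp v b p ∧
    ∀ x y, x ∈ X → InP v b y → (pair x y ∈ τ ↔ app h (app p y) ∈ x)

/-- Every member of `Y` is in `X (i, z)` for all large `i < a` and all large `z < m`. -/
def Fil (a m Y X : ZFSet.{u}) : Prop :=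
  ∀ x, x ∈ Y → ∃ e, e ∈ a ∧ ∀ i, i ∈ a → e ∈ i →
    ∃ l, l ∈ m ∧ ∀ z, z ∈ m → l ∈ z → x ∈ app X (pair i z)

theorem Fil.ev (h : Fil a m Y X) (ha : Unc a) (hm : Unc m) (hx : x ∈ Y) :
    ∀ᶠ i in cf a ha, ∀ᶠ z in cf m hm, x ∈ app X (pair i z) := by
  obtain ⟨e, e1, e2⟩ := h x hx
  filter_upwards [ev_above ha e1, ev_mem ha] with i i1 i2
  obtain ⟨l, l1, l2⟩ := e2 i i2.2 i1
  filter_upwards [ev_above hm l1, ev_mem hm] with z z1 z2 using l2 z z2.2 z1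

theorem canonN (ha : Unc a) (hb : BdK g a) (hm : Unc m) (hc : BdK g m) (hX : Fil a m (Lev a) X)
    (hv : CovK g a Q v) (hw : CovK g a Q w) : ∀ᶠ i in cf a ha, ∀ᶠ z in cf m hm,
      ∀ b, Cl a (app X (pair i z)) b → ∀ x, InP v b x → InP w b x := by
  choose! h h1 h3 h4 using fun f (hf : f ∈ v) f' (hf' : f' ∈ w) =>
    canon_fun ha (hv.2.1 f hf).1 (hw.2.1 f' hf').1
  filter_upwards [hb.ev ha hv.1 (p := fun f i => ∀ f' ∈ w, ∀ᶠ z in cf m hm,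
    h f f' ∈ app X (pair i z)) fun f hf => hb.ev ha hw.1 fun f' hf' =>
      hX.ev ha hm (h1 f hf f' hf')] with l l1
  filter_upwards [hc.ev hm hv.1 (p := fun f z => ∀ f' ∈ w, h f f' ∈ app X (pair l z))
    fun f hf => hc.ev hm hw.1 (l1 f hf)] with z z1 b hc x ⟨f, hf, i, hi, hx⟩
  have g1 := (hv.2.1 f hf).2
  obtain ⟨hia, hxX⟩ := pair_mem_prod.1 (g1.1 hx)
  obtain ⟨f', hf', j, hj⟩ := hw.2.2 x hxX
  have g2 := (hw.2.1 f' hf').2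
  have h5 := h3 f hf f' hf'
  have h6 := hc _ (z1 f hf f' hf') h5 i hi _ (h5.app_mem hia)
  have h7 := h4 f hf f' hf' i hia
    ⟨j, (pair_mem_prod.1 (g2.1 hj)).1, (g2.app_eq hj).trans (g1.app_eq hx).symm⟩
  refine ⟨f', hf', _, h6, ?_⟩
  have h8 := g2.app_mem (h5.app_mem' hia)
  rwa [h7, g1.app_eq hx] at h8

theorem lemN (hs : SL a) (ha : Unc a) (go : g.IsOrdinal) (hb : BdK g a) (hm : Unc m)
    (hc : BdK g m) (hma : card m ≤ card a) (hQ : HOD Set.univ Q)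
    (hv : CovK g a Q v) (h1 : τ ⊆ prod (Lev a) Q) (h2 : Apx a (prod (Lev a) Q) τ)
    (hX : Fil a m (Lev a) X) (h3 : ∀ i ∈ a, ∀ z ∈ m,
      ∃ b ∈ a, i ∈ b ∧ ∃ h ∈ low a, InN a (app X (pair i z)) v τ b h) : HOD Set.univ τ := by
  obtain ⟨c, c1, c2⟩ := hs.cof a a ha subset_rfl (fun x hx => ha.succ hx) le_rfl
  obtain ⟨d, d1, d2⟩ := hs.cof m m hm subset_rfl (fun x hx => hm.succ hx) hma
  have hZ := hod_prod (hod_Lev ha.1) hQ
  have hD := hod_prod (hod_ord ha.1) ((mem_Lev ha.1).1 (low_lev ha.1)).2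
  obtain ⟨o, mo, k, k0, k1, k2⟩ := od_rank (prod a (low a)) fun x hx => (hD.mem hx).self
  have := Tm.one (C := Set.univ) (A := On) k
  have : Tm Set.univ On (fun _ => a) := Tm.ofOrd ha.1
  have : Tm Set.univ On (fun _ => m) := Tm.ofOrd hm.1
  have : Tm Set.univ On (fun _ => g) := Tm.ofOrd go
  have := tm_low ha.1
  have := hod_tm (hod_Lev ha.1)
  have := hod_tm hQ
  choose! b b1 b2 h b3 b4 using h3
  have hD : Df Set.univ On fun y : ℕ → ZFSet.{u} => y 0 ⊆ prod (Lev a) Q ∧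
      Apx a (prod (Lev a) Q) (y 0) ∧ ∃ v, ∃ X, CovK g a Q v ∧ Fil a m (Lev a) X ∧
        ∀ i, i ∈ a → ∀ z, z ∈ m → ∃ b, ∃ h, b ∈ a ∧ i ∈ b ∧ h ∈ low a ∧
          InN a (app X (pair i z)) v (y 0) b h ∧ app (y 1) (pair i z) = k (pair b h) := by
    unfold Fil InN Cl
    infer_instance
  refine rank_fam hs.sl hs.unc ha hm c1 c2 d1 d2 hZ (fun σ F => σ ⊆ prod (Lev a) Q ∧
      Apx a (prod (Lev a) Q) σ ∧ ∃ v, ∃ X, CovK g a Q v ∧ Fil a m (Lev a) X ∧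
        ∀ i, i ∈ a → ∀ z, z ∈ m → ∃ b, ∃ h, b ∈ a ∧ i ∈ b ∧ h ∈ low a ∧
          InN a (app X (pair i z)) v σ b h ∧ app F (pair i z) = k (pair b h))
    (fun σ F ⟨s1, s2, _, _, _, _, s3⟩ => ⟨s1, s2, fun i hi z hz => ?_⟩)
    (fun σ F σ' F' ⟨s1, _, v, X, v1, x1, s3⟩ ⟨t1, _, w, Y, w1, y1, t3⟩ e => ?_)
    (F := gr (fun p => k (pair (b (fst p) (snd p)) (h (fst p) (snd p)))) (prod a m))
    ⟨h1, h2, v, X, hv, hX, fun i hi z hz => ⟨b i z, h i z, b1 i hi z hz, b2 i hi z hz,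
      b3 i hi z hz, b4 i hi z hz, by
        rw [app_gr (pair_mem_prod.2 ⟨hi, hz⟩), fst_pair, snd_pair]⟩⟩
  · obtain ⟨b, h, d1, -, d2, -, d3⟩ := s3 i hi z hz
    exact d3 ▸ mo.mem (k1 _ (pair_mem_prod.2 ⟨d1, d2⟩))
  obtain ⟨z, hz⟩ : ∃ z, ¬ (z ∈ σ ↔ z ∈ σ') := not_forall.1 fun h => e (ZFSet.ext h)
  obtain ⟨x, hx, y, hy, rfl⟩ := mem_prod.1 (show z ∈ prod (Lev a) Q by
    by_cases h : z ∈ σ
    exacts [s1 h, t1 (by tauto)])
  obtain ⟨e3, a5, a6⟩ := lemAK_inP v1 hy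
  filter_upwards [canonN ha hb hm hc x1 v1 w1, canonN ha hb hm hc x1 w1 v1, x1.ev ha hm hx,
    y1.ev ha hm hx, ev_above ha a5, ev_mem ha] with i j1 j2 j3 j4 l5 l6
  filter_upwards [j1, j2, j3, j4, ev_mem hm] with z l1 l2 l3 l4 l7 e
  obtain ⟨b, h, d1, d2, d3, ⟨d4, p, d5, d6⟩, d7⟩ := s3 i l6.2 z l7.2
  obtain ⟨b', h', f1, -, f3, ⟨-, q, f5, f6⟩, f7⟩ := t3 i l6.2 z l7.2
  obtain ⟨rfl, rfl⟩ := pair_inj.1 (k2 _ (pair_mem_prod.2 ⟨d1, d3⟩) _ (pair_mem_prod.2 ⟨f1, f3⟩)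
    (d7.symm.trans (e.trans f7)))
  have y2 := a6 b ((ha.1.mem d1).mem_trans l5 d2)
  have q1 : Clp v b q := fun y hy z => (f5 y (l1 b d4 y hy) z).trans
    (exists_congr fun s => and_congr_right fun _ => and_congr_left fun _ =>
      ⟨l2 b d4 s, l1 b d4 s⟩)
  refine hz ((d6 x y l3 y2).trans ?_)
  rw [d5.unique q1 y y2]
  exact (f6 x y l4 (l1 b d4 y y2)).symm

end Pool.Agent.MP_ecfd11_lc.H13N
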