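import Pool.Agent.MP_ecfd11_lc.H13N.Rank

/-!
Reflection of the long extenders along a filtration.
-/

set_option synthInstance.maxSize 4000

namespace Pool.Agent.MP_ecfd11_lc.H13N

open Pool.Agent.MP_ecfd11_lc.H20 Pool.Agent.MP_ecfd11_lc.H13X Pool.Agent.MP_ecfd11_lc.H3U
  Pool.Agent.MP_ecfd11_lc.H3E Pool.Agent.MP_ecfd11_lc.H65S Pool.Agent.MP_ecfd11_lc.H46M

universe u

open ZFSet Cardinal Function Filter

variable {g t a b e : ZFSet.{u}} {B : ZFSet.{u} → ZFSet.{u}} {κ : Type u}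

/-- The extenders at `a` are computed from collapses along some filtration. -/
def RealN (g t : ZFSet.{u}) (B : ZFSet.{u} → ZFSet.{u}) (a : ZFSet.{u}) : Prop :=
  ∀ v Q G : ZFSet.{u}, Q.IsTransitive → (∃ y, y ∈ Q) → CovK g a Q v → G ∈ low t →
    ∃ X, Fil a (card a).ord.toZFSet (Lev a) X ∧ ∀ i ∈ a, ∀ z ∈ (card a).ord.toZFSet,
      ∃ b ∈ a, i ∈ b ∧ ∃ h ∈ low a, InN a (app X (pair i z)) v (ExQ B a Q G) b h

theorem fr_constT {ι : Type u} (ht : Regular Set.univ t) (hι : card e ^ #ι < card t)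
    (p : (ι → ZFSet.{u}) → ZFSet.{u} → Prop)
    (h : ∃ᶠ a in cf t (unc_of_regular ht), ∃ j, (∀ k, j k ∈ e) ∧ p j a) :
    ∃ j, ∃ᶠ a in cf t (unc_of_regular ht), p j a := by
  by_contra h0
  simp only [not_exists, not_frequently] at h0
  have key : ∀ᶠ L in cf t (unc_of_regular ht), ∀ q : ι → Shrink.{u} e,
      ¬ p (fun k => ((equivShrink e).symm (q k)).1) L :=
    ev_type ht (by
      have h1 : #(ι → Shrink.{u} e) = card e ^ #ι := (power_def _ _).symm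
      rwa [h1]) fun q => h0 _
  obtain ⟨L, ⟨j, j1, j2⟩, hL⟩ := (h.and_eventually key).exists
  exact hL (fun k => equivShrink e ⟨j k, j1 k⟩) (by simpa using j2)

theorem reflectN (ha : Good t B a) (hb : Good t B b) (hba : b ∈ a) {Q Q' G G' X : ZFSet.{u}}
    (hG : G' ∈ low a) {U V U' V' : κ → ZFSet.{u}}
    {j : κ ⊕ (κ × κ) ⊕ (κ × κ) → ZFSet.{u}} (h1 : CodedM B a Q G U V j)
    (h2 : CodedM B b Q' G' U' V' j) {v : ZFSet.{u}} (hv : ∀ f, f ∈ v ↔ ∃ k, V k = f)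
    (hX : ∀ x ∈ X, ∃ w ∈ b, x = B w ∩ vC Set.univ a ∧
      ∀ k, ∀ n ∈ b, app G (app (V k) n) ∈ B w ↔ app G' (app (V' k) n) ∈ B w) :
    InN a X v (ExQ B a Q G) b G' := by
  have hs : b ⊆ a := ha.ord.subset_of_mem hba
  obtain ⟨p, p1, p2⟩ := reflectM_clp hs h1 h2 hv
  refine ⟨fun h hh hf i hi z hz => ?_, p, p1, fun x y hx hy => ?_⟩
  · obtain ⟨x, hx, e, -⟩ := hX h hh
    have z1 : z ∈ a := (pair_mem_prod.1 (hf.1 hz)).2
    obtain ⟨w, hw, w1⟩ := hb.s1 x hx i hi ⟨z, ha.sub z1, (mem_inter.1 (e ▸ hz)).1⟩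
    have w2 : pair i w ∈ h := e ▸ mem_inter.2 ⟨w1,
      (pair_vC ha.ord ha.lim).2 ⟨H3E.mem_vC ha.ord (hs hi), H3E.mem_vC ha.ord (hs hw)⟩⟩
    exact (hf.2 i (hs hi)).unique w2 hz ▸ hw
  · obtain ⟨k, i, hi, rfl⟩ := (reflectK_inP hs h1.v1 hv).1 hy
    obtain ⟨w, hw, rfl, c⟩ := hX x hx
    have e1 := c k i hi
    rw [p2 k i hi, mem_ExQ]
    constructor
    · rintro ⟨-, -, z, hz, w1, w2⟩
      rw [ha.s0 z hz w (hs hw) w1.symm] at w2
      exact mem_inter.2 ⟨e1.1 w2, reflectK_app ha.ord hG⟩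
    · intro h
      refine ⟨(mem_Lev ha.ord).2 ⟨fun z hz => (mem_inter.1 hz).2, ?_⟩, (h1.v1 k).app_mem' (hs hi),
        w, hs hw, rfl, e1.2 (mem_inter.1 h).1⟩
      have : Tm Set.univ On (fun _ => a) := Tm.ofOrd ha.ord
      exact hod_inter (ha.hod w (hs hw)) (od_iff.2 inferInstance)

theorem exists_code (h : Good t B a) {W G f : ZFSet.{u}} (hW : HOD Set.univ W)
    (hG : HOD Set.univ G) (hf : HOD Set.univ f) :
    ∃ x ∈ a, ∀ i ∈ a, app G (app f i) ∈ W ↔ pair i i ∈ B x := by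
  have := hod_tm hW
  have := hod_tm hG
  have := hod_tm hf
  have : Tm Set.univ On (fun _ => a) := Tm.ofOrd h.ord
  obtain ⟨x, hx, e⟩ := exists_coded_rel h
    (S := (prod a a).sep fun p => app G (app f (fst p)) ∈ W) sep_subset (od_iff.2 inferInstance)
  refine ⟨x, hx, fun i hi => ?_⟩
  rw [← e i hi i hi, mem_sep, pair_mem_prod, fst_pair]
  exact ⟨fun h' => ⟨⟨hi, hi⟩, h'⟩, fun h' => h'.2⟩

theorem realN (hg : ℵ₀ ≤ card g) (ht : Regular Set.univ t)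
    (hw : ∀ e ∈ t, card e ^ card g < card t)
    (h : ∀ᶠ L in cf t (unc_of_regular ht), Good t B L) :
    ∀ᶠ a in cf t (unc_of_regular ht), BdK g a → BdK g (card a).ord.toZFSet →
      (card a).IsStrongLimit → RealN g t B a := by
  classical
  by_contra h0
  have hu := unc_of_regular ht
  have e0 : #(Shrink.{u} g) = card g := rfl
  have hι : #((Shrink.{u} g ⊕ (Shrink.{u} g × Shrink.{u} g) ⊕ (Shrink.{u} g × Shrink.{u} g)) ⊕
      PUnit.{u + 1} ⊕ PUnit.{u + 1}) ≤ card g := by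
    simp only [mk_sum, mk_prod, lift_id, e0, mul_eq_self hg, add_eq_self hg, mk_punit,
      ← add_assoc, add_one_eq hg, le_refl]
  choose E E1 E2 using fun i : ZFSet.{u} =>
    exists_inj_of_card_le (a := i) (b := (card i).ord.toZFSet) (card_ord' _).ge
  obtain ⟨S, hS⟩ : ∃ S : ZFSet.{u} → ZFSet.{u} → ZFSet.{u},
      ∀ i z w, w ∈ S i z ↔ w ∈ i ∧ E i w ∈ z :=
    ⟨fun i z => i.sep fun w => E i w ∈ z, fun _ _ _ => mem_sep⟩
  obtain ⟨j, hj⟩ := fr_constK hι ht hw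
    (fun j a => Good t B a ∧ (card a).IsStrongLimit ∧ card g < card a ∧
      card (j (.inr (.inr ⟨⟩))) < card a ∧
      ∃ (U V : Shrink.{u} g → ZFSet.{u}) (v Q G X : ZFSet.{u})
      (o : Shrink.{u} g → ZFSet.{u} → ZFSet.{u}),
      G ∈ low t ∧ CodedM B a Q G U V (fun k => j (.inl k)) ∧ (∀ f, f ∈ v ↔ ∃ k, V k = f) ∧
      (∀ k, ∀ w ∈ a, ∀ n ∈ a, app G (app (V k) n) ∈ B w ↔ pair n n ∈ B (o k w)) ∧
      (∀ x ∈ X, ∃ w ∈ S (j (.inr (.inl ⟨⟩))) (j (.inr (.inr ⟨⟩))), x = B w ∩ vC Set.univ a ∧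
        ∀ k, o k w ∈ S (j (.inr (.inl ⟨⟩))) (j (.inr (.inr ⟨⟩)))) ∧
      ∀ b ∈ a, j (.inr (.inl ⟨⟩)) ∈ b → ∀ h ∈ low a, ¬ InN a X v (ExQ B a Q G) b h)
    (((not_eventually.1 h0).and_eventually h).mono fun a ⟨h1, ha⟩ => by
      obtain ⟨hb, h2⟩ := Classical.not_imp.1 h1
      obtain ⟨hm, h2⟩ := Classical.not_imp.1 h2
      obtain ⟨sl, h2⟩ := Classical.not_imp.1 h2
      simp only [RealN, not_forall, not_exists, not_and] at h2
      obtain ⟨v, Q, G, c2, ⟨y, c3⟩, c4, c6, c5⟩ := h2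
      obtain ⟨V, hV⟩ := realK_enum c4.1 ((c4.2.2 _ c3).imp fun _ h => h.1)
      have v0 := fun m => c4.2.1 _ ((hV _).2 ⟨m, rfl⟩)
      have u0 := cst_GG ha.ord (low_lev ha.ord)
      have g0 := ((mem_low ht.1).1 c6).2
      have mo := isOrdinal_toZFSet (card a).ord
      have ga : card g < card a := not_le.1 fun h => by
        obtain ⟨b, b1, b2⟩ := hb a subset_rfl h
        exact mem_irrefl b (b2 b b1)
      obtain ⟨j, j1, j2⟩ := exists_codedM (U := fun _ : Shrink.{u} g => cst a (low a)) ha g0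
        (fun _ => u0.1) (fun _ => u0.2) (fun k => (v0 k).1) (fun k => (v0 k).2)
        (fun x hx => by
          obtain ⟨f, g1, g2⟩ := c4.2.2 x hx
          obtain ⟨m, rfl⟩ := (hV f).1 g1
          exact ⟨m, g2⟩) c2
      choose! o o1 o2 using fun k w (hw : w ∈ a) => exists_code ha (ha.hod w hw) g0 (v0 k).1
      have bd : ∀ (n : ZFSet.{u}) (F : Shrink.{u} g → ZFSet.{u}), BdK g n → (∀ k, F k ∈ n) →
          ∃ c ∈ n, ∀ k, F k ∈ c := fun n F hn hF => by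
        obtain ⟨c, c1, c2⟩ := hn (range F)
          (fun x hx => by obtain ⟨n, rfl⟩ := mem_range.1 hx; exact hF n)
          (by
            have h1 := lift_card_range_le (f := F)
            rwa [lift_id, lift_id] at h1)
        exact ⟨c, c1, fun k => c2 _ (mem_range.2 ⟨k, rfl⟩)⟩
      obtain ⟨i, hi, z, hz, c7⟩ := c5 (gr (fun p => img (fun w => B w ∩ vC Set.univ a)
        ((S (fst p) (snd p)).sep fun w => ∀ k, o k w ∈ S (fst p) (snd p)))
        (prod a (card a).ord.toZFSet)) fun x hx => by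
          obtain ⟨w, w1, rfl⟩ := ha.tr x hx
          obtain ⟨c, c1, c2⟩ := bd a (fun k => o k w) hb fun k => o1 k w w1
          refine ⟨w ∪ c, union_mem ha.ord w1 c1, fun i i1 i2 => ?_⟩
          have io := ha.ord.mem i1
          have i3 : w ∈ i := (ha.ord.mem w1).mem_of_subset_of_mem io
            (fun z hz => mem_union.2 (Or.inl hz)) i2
          have i4 : ∀ k, o k w ∈ i := fun k => io.mem_trans (mem_union.2 (Or.inr (c2 k))) i2
          have i5 : ∀ y ∈ i, E i y ∈ (card a).ord.toZFSet := fun y hy => by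
            have h1 := (isOrdinal_toZFSet _).mem (E1 i y hy)
            exact (mem_ord_iff h1).2 (((mem_ord_iff h1).1 (E1 i y hy)).trans_le
              (card_mono (ha.ord.subset_of_mem i1)))
          obtain ⟨l, l1, l2⟩ := bd _ (fun k => E i (o k w)) hm fun k => i5 _ (i4 k)
          refine ⟨E i w ∪ l, union_mem mo (i5 w i3) l1, fun z z1 z2 => ?_⟩
          have zo := mo.mem z1
          rw [app_gr (pair_mem_prod.2 ⟨i1, z1⟩), fst_pair, snd_pair]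
          exact mem_img.2 ⟨w, mem_sep.2 ⟨(hS _ _ _).2 ⟨i3, (mo.mem (i5 w i3)).mem_of_subset_of_mem
            zo (fun z hz => mem_union.2 (Or.inl hz)) z2⟩, fun k => (hS _ _ _).2 ⟨i4 k,
              zo.mem_trans (mem_union.2 (Or.inr (l2 k))) z2⟩⟩, rfl⟩
      rw [app_gr (pair_mem_prod.2 ⟨hi, hz⟩), fst_pair, snd_pair] at c7
      have z1 := (mem_ord_iff (mo.mem hz)).1 hz
      refine ⟨hb, Sum.elim j (Sum.elim (fun _ => i) fun _ => z), ?_, ha, sl, ga, z1, _, V, v, Q, G,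
        _, o, c6, j2, hV, o2, fun x hx => ?_, c7⟩
      · rintro (k | k | k)
        exacts [j1 k, hi, H46.mem_of_card_lt (mo.mem hz) ha.ord z1]
      · obtain ⟨w, w1, rfl⟩ := mem_img.1 hx
        exact ⟨w, (mem_sep.1 w1).1, rfl, (mem_sep.1 w1).2⟩)
  obtain ⟨i, hi⟩ : ∃ i, i = j (.inr (.inl ⟨⟩)) := ⟨_, rfl⟩
  obtain ⟨z, hz⟩ : ∃ i, i = j (.inr (.inr ⟨⟩)) := ⟨_, rfl⟩
  obtain ⟨s, hs⟩ : ∃ s, s = S i z := ⟨_, rfl⟩
  simp only [← hi, ← hz, ← hs] at hj
  have si : s ⊆ i := fun w hw => ((hS _ _ _).1 (hs ▸ hw)).1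
  have sz : card s ≤ card z := card_le_of_inj (E i) (fun w hw => ((hS _ _ _).1 (hs ▸ hw)).2)
    fun x hx y hy => E2 i x (si hx) y (si hy)
  obtain ⟨q, hq⟩ := fr_constT (ι := Shrink.{u} g × Shrink.{u} s) (e := insert s s) ht
    ((power_le_power_right (cantor _).le).trans_lt (by
      obtain ⟨a, ⟨-, -, a1, a2, a3, -⟩, a4⟩ := (hj.and_eventually (ev_mem hu)).exists
      have a5 := sz.trans_lt a3
      rw [← power_mul]
      refine (a1.isStrongPrelimit (mul_lt_of_lt a1.aleph0_le (card_insert_le.trans_lt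
        (add_lt_of_lt a1.aleph0_le a5 (one_lt_aleph0.trans_le a1.aleph0_le))) ?_)).trans
        (ht.card_lt a4.2)
      rw [mk_prod, lift_id, lift_id]
      exact mul_lt_of_lt a1.aleph0_le a2 a5))
    (fun q a => i ∈ a ∧ Good t B a ∧ ∃ (U V : Shrink.{u} g → ZFSet.{u}) (v Q G X : ZFSet.{u}),
      G ∈ low t ∧ CodedM B a Q G U V (fun k => j (.inl k)) ∧ (∀ f, f ∈ v ↔ ∃ k, V k = f) ∧
      (∀ k w (hw : w ∈ s), q (k, equivShrink s ⟨w, hw⟩) ∈ s → ∀ n ∈ a,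
        app G (app (V k) n) ∈ B w ↔ pair n n ∈ B (q (k, equivShrink s ⟨w, hw⟩))) ∧
      (∀ x ∈ X, ∃ w, ∃ hw : w ∈ s, x = B w ∩ vC Set.univ a ∧
        ∀ k, q (k, equivShrink s ⟨w, hw⟩) ∈ s) ∧
      ∀ b ∈ a, i ∈ b → ∀ h ∈ low a, ¬ InN a X v (ExQ B a Q G) b h)
    (hj.mono fun a ⟨a0, ha, _, _, _, U, V, v, Q, G, X, o, a1, a2, a3, a4, a5, a6⟩ => by
      have ia : i ∈ a := hi ▸ a0 _
      refine ⟨fun z => if o z.1 ((equivShrink s).symm z.2).1 ∈ s then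
        o z.1 ((equivShrink s).symm z.2).1 else s, fun z => ?_, ia, ha, U, V, v, Q, G, X, a1, a2,
        a3, fun k w hw h1 => ?_, fun x hx => ?_, a6⟩
      · dsimp only
        split_ifs with h
        exacts [mem_insert_of_mem _ h, mem_insert _ _]
      · simp only [Equiv.symm_apply_apply] at h1 ⊢
        split_ifs at h1 ⊢ with h
        exacts [a4 k w (ha.ord.mem_trans (si hw) ia), absurd h1 (mem_irrefl s)]
      · obtain ⟨w, w1, w2, w3⟩ := a5 x hx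
        refine ⟨w, w1, w2, fun k => ?_⟩
        simp only [Equiv.symm_apply_apply]
        rw [if_pos (w3 k)]
        exact w3 k)
  obtain ⟨b, ⟨b0, hb, U', V', -, Q', G', -, b1, b2, -, b5, -⟩, b4⟩ :=
    (hq.and_eventually (ev_mem hu)).exists
  obtain ⟨g1, g2⟩ := (mem_low ht.1).1 b1
  obtain ⟨c, c1, c2⟩ := exists_level ht.1 (fun b hb => hu.succ hb) g1
  obtain ⟨a, ⟨-, ha, U, V, v, Q, G, X, -, a2, a3, a4, a5, a6⟩, l1, l2⟩ :=
    (hq.and_eventually ((ev_above (S := t) hu b4.2).and (ev_above (S := t) hu c1))).exists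
  have g3 := (mem_low ha.ord).2 ⟨c2.trans (rank_lt_of_mem l2), g2⟩
  refine a6 b l1 b0 G' g3 (reflectN ha hb l1 g3 a2 b2 a3 fun x hx => ?_)
  obtain ⟨w, w1, w2, w3⟩ := a5 x hx
  exact ⟨w, hb.ord.mem_trans (si w1) b0, w2, fun k n hn =>
    (a4 k w w1 (w3 k) n (ha.ord.mem_trans hn l1)).trans (b5 k w w1 (w3 k) n hn).symm⟩

end Pool.Agent.MP_ecfd11_lc.H13N
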